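import Pool.Agent.Helper94.GA.Goals

/-! Packet FIN2 (growth gap): choosing the place with the smallest Mahler measure. -/

namespace Pool.Agent.Helper56.GA

open Finset Pointwise Filter Topology
open Pool.Agent.Helper11.Gap Pool.Agent.Helper94.GA

universe u v w

theorem avgEnt_nonneg (h1 : ENT_stmt.{0, u, w}) {K : Type u} [Field K] {C : Type} [Fintype C]
    (α : K) (x : C → K) (n : ℕ) : 0 ≤ avgEnt α x n := by
  unfold avgEnt
  refine div_nonneg (Finset.sum_nonneg fun c _ => ?_) (by positivity)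
  exact h1.1 (Fin n → Bool) K _

theorem FIN2 (h2 : TW_stmt.{v}) (h3 : FIN1_stmt.{u, v}) :
    FIN2_stmt.{u, v} := by
  intro G _ _ K _ _ hK T R hint hT P
  obtain ⟨x, hx, hsum⟩ := h3 G K T R P hT
  have hIne : P.I.Nonempty := by
    rw [← Finset.card_pos]
    have a := P.hcard
    have b := P.hD
    omega
  -- the values
  set α : ℕ → K := fun i => (R.at' (P.hs i)).χ P.u with hα
  have hmem : ∀ i, (P.hs i)⁻¹ * P.u * P.hs i ∈ commutator G := by
    intro i
    have hN : (commutator G).Normal := inferInstance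
    have := hN.conj_mem P.u P.hu (P.hs i)⁻¹
    rwa [inv_inv] at this
  have hαint : ∀ i, IsIntegral ℤ (α i) := fun i => hint _ (hmem i)
  have hTW : ∀ i ∈ P.I, ∃ B : ℝ, ∀ n : ℕ,
      (1 / 8) * min 1 (Real.log (mah (α i))) * ((n : ℝ) - B) ≤ avgEnt (α i) (x i) n :=
    fun i hi => h2 K hK (Fin P.D → Bool) (α i) (hαint i) (x i) (hx i hi)
  choose! B hB using hTW
  obtain ⟨i₀, hi₀, hmin⟩ := Finset.exists_min_image P.I
    (fun i => min 1 (Real.log (mah (α i)))) hIne
  refine ⟨(P.hs i₀)⁻¹ * P.u * P.hs i₀, hmem i₀, fun k hk => P.hχ i₀ hi₀ k hk, ?_⟩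
  have hcardpos : ∀ n : ℕ, (0 : ℝ) ≤ Real.log ((T ^ (22 * P.D * n)).card : ℝ) := by
    intro n
    apply Real.log_natCast_nonneg
  set a₀ : ℝ := min 1 (Real.log (mah (α i₀))) with ha₀
  have ha₀' : min 1 (Real.log (mah (R.χ ((P.hs i₀)⁻¹ * P.u * P.hs i₀)))) = a₀ := rfl
  rw [ha₀']
  have hDpos : (0 : ℝ) ≤ (P.D : ℝ) / 16 := by positivity
  rcases lt_or_ge a₀ 0 with hneg | hnn
  · refine ⟨0, fun n => le_trans ?_ (hcardpos n)⟩
    have : (P.D : ℝ) / 16 * a₀ ≤ 0 := mul_nonpos_of_nonneg_of_nonpos hDpos hneg.le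
    have hn : (0 : ℝ) ≤ (n : ℝ) - 0 := by simp
    exact mul_nonpos_of_nonpos_of_nonneg this hn
  · -- the common constant
    set Bm : ℝ := ∑ i ∈ P.I, max (B i) 0 with hBm
    have hBi : ∀ i ∈ P.I, B i ≤ Bm := by
      intro i hi
      calc B i ≤ max (B i) 0 := le_max_left _ _
        _ ≤ Bm := Finset.single_le_sum (f := fun i => max (B i) 0)
            (fun j _ => le_max_right _ _) hi
    refine ⟨Bm, fun n => ?_⟩
    rcases lt_or_ge (n : ℝ) Bm with hlt | hge
    · refine le_trans ?_ (hcardpos n)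
      exact mul_nonpos_of_nonneg_of_nonpos (mul_nonneg hDpos hnn) (by linarith)
    · have hterm : ∀ i ∈ P.I, (1 / 8) * a₀ * ((n : ℝ) - Bm) ≤ avgEnt (α i) (x i) n := by
        intro i hi
        have e1 : a₀ ≤ min 1 (Real.log (mah (α i))) := hmin i hi
        have e2 := hB i hi n
        have e3 := hBi i hi
        have e4 : (0 : ℝ) ≤ (n : ℝ) - Bm := by linarith
        refine le_trans ?_ e2
        have e5 : (n : ℝ) - Bm ≤ (n : ℝ) - B i := by linarith
        have e6 : (1 / 8) * a₀ ≤ (1 / 8) * min 1 (Real.log (mah (α i))) := by linarith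
        exact mul_le_mul e6 e5 e4 (by linarith)
      refine le_trans ?_ (hsum n)
      have e7 : ∑ i ∈ P.I, (1 / 8) * a₀ * ((n : ℝ) - Bm) ≤
          ∑ i ∈ P.I, avgEnt ((R.at' (P.hs i)).χ P.u) (x i) n :=
        Finset.sum_le_sum hterm
      refine le_trans ?_ e7
      rw [Finset.sum_const, nsmul_eq_mul]
      have e8 : (P.D : ℝ) ≤ 2 * (P.I.card : ℝ) := by exact_mod_cast P.hcard
      have e9 : (0 : ℝ) ≤ a₀ * ((n : ℝ) - Bm) := mul_nonneg hnn (by linarith)
      nlinarith [mul_le_mul_of_nonneg_right e8 e9]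

end Pool.Agent.Helper56.GA
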